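import Mathlib

/-!
The `r`-fold upper shadows of a half-sized family in the middle layer and of its complement meet in
a set of measure at least a constant times `ε`, where `r = ⌈ε √n⌉`.
-/

set_option autoImplicit false

namespace Pool.Agent.Results.MP_5f127b_co.LinearBound

open Finset

/-- The measure `|F| / C(n, k)` of a family `F` inside the layer of `k`-subsets of `[n]`. -/
noncomputable def mu (n k : ℕ) (F : Finset (Finset (Fin n))) : ℝ :=
  (F.card : ℝ) / (n.choose k : ℝ)

/-- The `r`-fold upper shadow, in the layer `k + r`, of a family of `k`-subsets of `[n]`. -/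
def upShadow (n k r : ℕ) (F : Finset (Finset (Fin n))) : Finset (Finset (Fin n)) :=
  (powersetCard (k + r) univ).filter (fun B => ∃ A ∈ F, A ⊆ B)

section general

variable {α : Type*} [DecidableEq α]

lemma card_supersets {S A : Finset α} {b : ℕ} (hA : A ⊆ S) (hb : A.card ≤ b) :
    ((powersetCard b S).filter (fun B => A ⊆ B)).card =
      (S.card - A.card).choose (b - A.card) := by
  rw [← card_sdiff_of_subset hA, ← card_powersetCard]
  refine card_nbij' (fun B => B \ A) (fun T => T ∪ A) ?_ ?_ ?_ ?_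
  · intro B hB
    rw [mem_coe, mem_filter, mem_powersetCard] at hB
    rw [mem_coe, mem_powersetCard]
    refine ⟨sdiff_subset_sdiff hB.1.1 (Subset.refl A), ?_⟩
    rw [card_sdiff_of_subset hB.2, hB.1.2]
  · intro T hT
    rw [mem_coe, mem_powersetCard] at hT
    rw [mem_coe, mem_filter, mem_powersetCard]
    refine ⟨⟨union_subset (hT.1.trans sdiff_subset) hA, ?_⟩, subset_union_right⟩
    rw [card_union_of_disjoint, hT.2]
    · omega
    · exact disjoint_of_subset_left hT.1 sdiff_disjoint
  · intro B hB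
    rw [mem_coe, mem_filter] at hB
    exact sdiff_union_of_subset hB.2
  · intro T hT
    rw [mem_coe, mem_powersetCard] at hT
    have hd : Disjoint T A := disjoint_of_subset_left hT.1 sdiff_disjoint
    exact union_sdiff_cancel_right hd

lemma dens_up {S : Finset α} {a b : ℕ} {U V : Finset (Finset α)}
    (hU : U ⊆ powersetCard a S) (hV : V ⊆ powersetCard b S) (hab : a ≤ b) (hb : b ≤ S.card)
    (h : ∀ A ∈ U, ∀ B ∈ powersetCard b S, A ⊆ B → B ∈ V) :
    (U.card : ℝ) / (S.card.choose a : ℝ) ≤ (V.card : ℝ) / (S.card.choose b : ℝ) := by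
  have hca : 0 < S.card.choose a := Nat.choose_pos (hab.trans hb)
  have hcb : 0 < S.card.choose b := Nat.choose_pos hb
  have hba : 0 < b.choose a := Nat.choose_pos hab
  have key : U.card * (S.card - a).choose (b - a) ≤ V.card * b.choose a := by
    apply card_mul_le_card_mul (fun A B => A ⊆ B)
    · intro A hA
      have hA' := mem_powersetCard.1 (hU hA)
      have h1 := card_supersets (b := b) hA'.1 (by rw [hA'.2]; exact hab)
      rw [hA'.2] at h1
      rw [← h1]
      apply card_le_card
      intro B hB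
      rw [mem_filter] at hB
      rw [mem_bipartiteAbove]
      exact ⟨h A hA B hB.1 hB.2, hB.2⟩
    · intro B hB
      have hB' := mem_powersetCard.1 (hV hB)
      rw [← hB'.2, ← card_powersetCard]
      apply card_le_card
      intro A hA
      rw [mem_bipartiteBelow] at hA
      rw [mem_powersetCard]
      exact ⟨hA.2, (mem_powersetCard.1 (hU hA.1)).2⟩
  rw [div_le_div_iff₀ (by exact_mod_cast hca) (by exact_mod_cast hcb)]
  have h2 : U.card * S.card.choose b * b.choose a ≤ V.card * S.card.choose a * b.choose a := by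
    rw [mul_assoc, Nat.choose_mul hab]
    calc U.card * (S.card.choose a * (S.card - a).choose (b - a))
        = S.card.choose a * (U.card * (S.card - a).choose (b - a)) := by ring
      _ ≤ S.card.choose a * (V.card * b.choose a) := Nat.mul_le_mul_left _ key
      _ = V.card * S.card.choose a * b.choose a := by ring
  exact_mod_cast Nat.le_of_mul_le_mul_right h2 hba

lemma dens_down {S : Finset α} {a b : ℕ} {U V : Finset (Finset α)}
    (hU : U ⊆ powersetCard a S) (hV : V ⊆ powersetCard b S) (hab : a ≤ b) (hb : b ≤ S.card)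
    (h : ∀ B ∈ V, ∀ A ∈ powersetCard a S, A ⊆ B → A ∈ U) :
    (V.card : ℝ) / (S.card.choose b : ℝ) ≤ (U.card : ℝ) / (S.card.choose a : ℝ) := by
  have hca : 0 < S.card.choose a := Nat.choose_pos (hab.trans hb)
  have hcb : 0 < S.card.choose b := Nat.choose_pos hb
  have hba : 0 < b.choose a := Nat.choose_pos hab
  have key : V.card * b.choose a ≤ U.card * (S.card - a).choose (b - a) := by
    apply card_mul_le_card_mul (fun B A => A ⊆ B)
    · intro B hB
      have hB' := mem_powersetCard.1 (hV hB)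
      rw [← hB'.2, ← card_powersetCard]
      apply card_le_card
      intro A hA
      rw [mem_powersetCard] at hA
      rw [mem_bipartiteAbove]
      exact ⟨h B hB A (mem_powersetCard.2 ⟨hA.1.trans hB'.1, hA.2⟩) hA.1, hA.1⟩
    · intro A hA
      have hA' := mem_powersetCard.1 (hU hA)
      have h1 := card_supersets (b := b) hA'.1 (by rw [hA'.2]; exact hab)
      rw [hA'.2] at h1
      rw [← h1]
      apply card_le_card
      intro B hB
      rw [mem_bipartiteBelow] at hB
      rw [mem_filter]
      exact ⟨hV hB.1, hB.2⟩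
  rw [div_le_div_iff₀ (by exact_mod_cast hcb) (by exact_mod_cast hca)]
  have h2 : V.card * S.card.choose a * (S.card - a).choose (b - a) ≤
      U.card * S.card.choose b * (S.card - a).choose (b - a) := by
    calc V.card * S.card.choose a * (S.card - a).choose (b - a)
        = V.card * (S.card.choose a * (S.card - a).choose (b - a)) := by ring
      _ = V.card * (S.card.choose b * b.choose a) := by rw [Nat.choose_mul hab]
      _ = S.card.choose b * (V.card * b.choose a) := by ring
      _ ≤ S.card.choose b * (U.card * (S.card - a).choose (b - a)) := Nat.mul_le_mul_left _ key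
      _ = _ := by ring
  exact_mod_cast Nat.le_of_mul_le_mul_right h2 (Nat.choose_pos (by omega))

/-- closed neighbourhood of `X` in the Johnson graph of the `k`-subsets of `S` -/
def nbd (S : Finset α) (k : ℕ) (X : Finset (Finset α)) : Finset (Finset α) :=
  (powersetCard k S).filter (fun B => ∃ A ∈ X, (A \ B).card ≤ 1)

lemma subset_nbd {S : Finset α} {k : ℕ} {X : Finset (Finset α)} (hX : X ⊆ powersetCard k S) :
    X ⊆ nbd S k X := by
  intro A hA
  exact mem_filter.2 ⟨hX hA, A, hA, by simp⟩

end general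

lemma quad {α x : ℝ} (hα1 : α ≤ 1) (hx0 : 0 ≤ x) (hx1 : x ≤ 1) :
    α * (1 - α) - 2 * x ≤ (α + x) * (1 - (α + x)) := by
  have h : 0 ≤ x * (3 - 2 * α - x) := mul_nonneg hx0 (by linarith)
  have e : (α + x) * (1 - (α + x)) = α * (1 - α) - 2 * x + x * (3 - 2 * α - x) := by ring
  rw [e]
  linarith

lemma caseA {P α d t g g' a R : ℝ} (hP0 : 0 ≤ P) (hP1 : P ≤ 1) (hα1 : α ≤ 1)
    (hd0 : 0 ≤ d) (hd1 : d ≤ 1) (ht : t = α * (1 - α)) (ha : a = α + P * d) (hg'0 : 0 ≤ g')
    (hg'4 : g' ≤ 1 / 4) (hgg : g ≤ g') (ht0 : 0 ≤ t) (hkey : g' * t ≤ d / 2)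
    (hR : a + (1 - P) * (g' * (a * (1 - a))) ≤ R) : α + g * t ≤ R := by
  have hx0 : 0 ≤ P * d := mul_nonneg hP0 hd0
  have hx1 : P * d ≤ 1 := by
    calc P * d ≤ 1 * 1 := mul_le_mul hP1 hd1 hd0 zero_le_one
      _ = 1 := one_mul 1
  have q : t - 2 * (P * d) ≤ a * (1 - a) := by
    rw [ht, ha]; exact quad hα1 hx0 hx1
  have hc0 : 0 ≤ (1 - P) * g' := mul_nonneg (by linarith) hg'0
  have h1 : (1 - P) * g' * (t - 2 * (P * d)) ≤ (1 - P) * g' * (a * (1 - a)) :=
    mul_le_mul_of_nonneg_left q hc0
  have h2 : (1 - P) * g' ≤ 1 / 4 := by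
    calc (1 - P) * g' ≤ 1 * (1 / 4) := mul_le_mul (by linarith) hg'4 hg'0 zero_le_one
      _ = 1 / 4 := one_mul _
  have h3 : (1 - P) * g' * (2 * (P * d)) ≤ 1 / 4 * (2 * (P * d)) :=
    mul_le_mul_of_nonneg_right h2 (by linarith)
  have h4 : P * (g' * t) ≤ P * (d / 2) := mul_le_mul_of_nonneg_left hkey hP0
  have h5 : g * t ≤ g' * t := mul_le_mul_of_nonneg_right hgg ht0
  have e1 : (1 - P) * (g' * (a * (1 - a))) = (1 - P) * g' * (a * (1 - a)) := by ring
  have e2 : (1 - P) * g' * (t - 2 * (P * d)) =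
      g' * t - P * (g' * t) - (1 - P) * g' * (2 * (P * d)) := by ring
  have e3 : P * (d / 2) = P * d / 2 := by ring
  rw [e1] at hR
  rw [e2] at h1
  linarith

lemma real_step {p q a0 a1 g g' ν0 ν1 n : ℝ} (hp : 0 ≤ p) (hq : 0 ≤ q) (hpq : q + p = 1)
    (h00 : 0 ≤ a0) (h01 : a0 ≤ 1) (h10 : 0 ≤ a1) (h11 : a1 ≤ 1) (hn : 0 < n) (hg' : 0 < g')
    (hg4 : g' ≤ 1 / 4) (hgn : g' ^ 2 * n ≤ 1 / 8) (hg : g ≤ g' * (1 - 1 / (2 * n)))
    (e0 : a0 + g' * a0 * (1 - a0) ≤ ν0) (e0' : a1 ≤ ν0)
    (e1 : a1 + g' * a1 * (1 - a1) ≤ ν1) (e1' : a0 ≤ ν1) :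
    (q * a0 + p * a1) + g * (q * a0 + p * a1) * (1 - (q * a0 + p * a1)) ≤ q * ν0 + p * ν1 := by
  obtain rfl : q = 1 - p := by linarith
  obtain ⟨α, hα⟩ : ∃ α, α = (1 - p) * a0 + p * a1 := ⟨_, rfl⟩
  rw [← hα]
  have hα0 : 0 ≤ α := by rw [hα]; positivity
  have hα1 : α ≤ 1 := by
    have : (1 - p) * a0 + p * a1 ≤ (1 - p) * 1 + p * 1 := by gcongr
    linarith
  obtain ⟨t, ht⟩ : ∃ t, t = α * (1 - α) := ⟨_, rfl⟩
  have ht0 : 0 ≤ t := by rw [ht]; exact mul_nonneg hα0 (by linarith)
  have ht1 : t ≤ 1 / 4 := by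
    have : t = 1 / 4 - (α - 1 / 2) ^ 2 := by rw [ht]; ring
    have := sq_nonneg (α - 1 / 2)
    linarith
  have hgg0 : g' / (2 * n) ≤ g' - g := by
    have e : g' * (1 - 1 / (2 * n)) = g' - g' / (2 * n) := by ring
    linarith
  have hgg : g ≤ g' := by
    have : 0 < g' / (2 * n) := by positivity
    linarith
  have hgoal : α + g * α * (1 - α) = α + g * t := by rw [ht]; ring
  rw [hgoal]
  by_cases hB : p * (1 - p) * (a0 - a1) ^ 2 * g' ≤ (g' - g) * t
  · have h1 : (1 - p) * (a0 + g' * a0 * (1 - a0)) + p * (a1 + g' * a1 * (1 - a1)) ≤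
        (1 - p) * ν0 + p * ν1 := by gcongr
    have h2 : (1 - p) * (a0 + g' * a0 * (1 - a0)) + p * (a1 + g' * a1 * (1 - a1)) =
        α + g' * t - p * (1 - p) * (a0 - a1) ^ 2 * g' := by
      rw [ht, hα]; ring
    have e3 : (g' - g) * t = g' * t - g * t := by ring
    linarith
  · push Not at hB
    have h3 : g' * t / (2 * n) ≤ (g' - g) * t := by
      calc g' * t / (2 * n) = g' / (2 * n) * t := by ring
        _ ≤ (g' - g) * t := mul_le_mul_of_nonneg_right hgg0 ht0
    have h5 : p * (1 - p) * (a0 - a1) ^ 2 ≤ (a0 - a1) ^ 2 / 4 := by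
      have e : (a0 - a1) ^ 2 / 4 - p * (1 - p) * (a0 - a1) ^ 2 =
        ((p - 1 / 2) * (a0 - a1)) ^ 2 := by ring
      have := sq_nonneg ((p - 1 / 2) * (a0 - a1))
      linarith
    have h4 : t / (2 * n) < (a0 - a1) ^ 2 / 4 := by
      have h6 : g' * (t / (2 * n)) < g' * ((a0 - a1) ^ 2 / 4) := by
        calc g' * (t / (2 * n)) = g' * t / (2 * n) := by ring
          _ ≤ (g' - g) * t := h3
          _ < p * (1 - p) * (a0 - a1) ^ 2 * g' := hB
          _ ≤ (a0 - a1) ^ 2 / 4 * g' := mul_le_mul_of_nonneg_right h5 hg'.le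
          _ = _ := by ring
      exact lt_of_mul_lt_mul_left h6 hg'.le
    have h7 : (g' * t) ^ 2 ≤ (|a0 - a1| / 2) ^ 2 := by
      have h8 : t < (a0 - a1) ^ 2 / 4 * (2 * n) := (div_lt_iff₀ (by positivity)).1 h4
      have h9 : (g' * t) ^ 2 * n ≤ (a0 - a1) ^ 2 / 64 * n := by
        calc (g' * t) ^ 2 * n = (g' ^ 2 * n) * (t * t) := by ring
          _ ≤ (1 / 8) * (t * t) := mul_le_mul_of_nonneg_right hgn (mul_nonneg ht0 ht0)
          _ ≤ (1 / 8) * ((1 / 4) * ((a0 - a1) ^ 2 / 4 * (2 * n))) := by
              have := mul_le_mul ht1 h8.le ht0 (by norm_num)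
              linarith
          _ = (a0 - a1) ^ 2 / 64 * n := by ring
      have h10 : (g' * t) ^ 2 ≤ (a0 - a1) ^ 2 / 64 := le_of_mul_le_mul_right h9 hn
      rw [div_pow, sq_abs]
      have := sq_nonneg (a0 - a1)
      linarith
    have h11' : g' * t ≤ |a0 - a1| / 2 :=
      abs_le_of_sq_le_sq' h7 (by positivity) |>.2
    rcases le_total a1 a0 with h | h
    · rw [abs_of_nonneg (sub_nonneg.2 h)] at h11'
      have b1 : (1 - p) * (a0 + g' * a0 * (1 - a0)) + p * a0 ≤ (1 - p) * ν0 + p * ν1 := by
        gcongr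
      refine caseA (P := p) (d := a0 - a1) (a := a0) (g' := g') hp (by linarith) hα1 (by linarith)
        (by linarith) ht (by rw [hα]; ring) hg'.le hg4 hgg ht0 h11' ?_
      calc a0 + (1 - p) * (g' * (a0 * (1 - a0)))
          = (1 - p) * (a0 + g' * a0 * (1 - a0)) + p * a0 := by ring
        _ ≤ _ := b1
    · rw [abs_of_nonpos (sub_nonpos.2 h)] at h11'
      have b1 : (1 - p) * a1 + p * (a1 + g' * a1 * (1 - a1)) ≤ (1 - p) * ν0 + p * ν1 := by
        gcongr
      refine caseA (P := 1 - p) (d := a1 - a0) (a := a1) (g' := g') hq (by linarith) hα1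
        (by linarith) (by linarith) ht (by rw [hα]; ring) hg'.le hg4 hgg ht0 (by linarith) ?_
      calc a1 + (1 - (1 - p)) * (g' * (a1 * (1 - a1)))
          = (1 - p) * a1 + p * (a1 + g' * a1 * (1 - a1)) := by ring
        _ ≤ _ := b1

section iso

variable {α : Type*} [DecidableEq α]

/-- vertex isoperimetry in the slice: the closed neighbourhood grows by `α (1 - α) / (4 √s)` -/
theorem iso (S : Finset α) : ∀ k ≤ S.card, ∀ X ⊆ powersetCard k S,
    (X.card : ℝ) / (S.card.choose k : ℝ) + (1 / 4) / √(S.card : ℝ) *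
      ((X.card : ℝ) / (S.card.choose k : ℝ)) * (1 - (X.card : ℝ) / (S.card.choose k : ℝ)) ≤
        ((nbd S k X).card : ℝ) / (S.card.choose k : ℝ) := by
  have htriv : ∀ (S : Finset α) (k : ℕ) (X : Finset (Finset α)), X ⊆ powersetCard k S →
      S.card.choose k = 1 →
    (X.card : ℝ) / (S.card.choose k : ℝ) + (1 / 4) / √(S.card : ℝ) *
      ((X.card : ℝ) / (S.card.choose k : ℝ)) * (1 - (X.card : ℝ) / (S.card.choose k : ℝ)) ≤
        ((nbd S k X).card : ℝ) / (S.card.choose k : ℝ) := by
    intro S k X hX h1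
    have h2 : X.card ≤ 1 := by
      rw [← h1, ← card_powersetCard]; exact card_le_card hX
    have h3 : (X.card : ℝ) ≤ (nbd S k X).card := by
      exact_mod_cast card_le_card (subset_nbd hX)
    rw [h1, Nat.cast_one, div_one, div_one]
    have h4 : X.card = 0 ∨ X.card = 1 := by omega
    rcases h4 with h4 | h4
    · rw [h4]; simp
    · rw [h4] at h3 ⊢; simpa using h3
  induction S using Finset.induction_on with
  | empty =>
    intro k hk X hX
    apply htriv _ _ _ hX
    have : k = 0 := by simpa using hk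
    rw [this]; simp
  | insert a S ha ih =>
    intro k hk X hX
    rw [card_insert_of_notMem ha] at hk
    by_cases hk0 : k = 0
    · subst hk0
      exact htriv _ _ _ hX (Nat.choose_zero_right _)
    by_cases hkn : k = S.card + 1
    · subst hkn
      apply htriv _ _ _ hX
      rw [card_insert_of_notMem ha, Nat.choose_self]
    obtain ⟨j, rfl⟩ := Nat.exists_eq_succ_of_ne_zero hk0
    have hjS : j + 1 ≤ S.card := by omega
    set X0 := X.nonMemberSubfamily a with hX0
    set X1 := X.memberSubfamily a with hX1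
    set Y := nbd (insert a S) (j + 1) X with hY
    have hX0s : X0 ⊆ powersetCard (j + 1) S := by
      intro A hA
      rw [hX0, mem_nonMemberSubfamily] at hA
      have := mem_powersetCard.1 (hX hA.1)
      exact mem_powersetCard.2 ⟨(subset_insert_iff_of_notMem hA.2).1 this.1, this.2⟩
    have hX1s : X1 ⊆ powersetCard j S := by
      intro A hA
      rw [hX1, mem_memberSubfamily] at hA
      have := mem_powersetCard.1 (hX hA.1)
      rw [card_insert_of_notMem hA.2] at this
      refine mem_powersetCard.2 ⟨?_, by omega⟩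
      exact (subset_insert_iff_of_notMem hA.2).1 ((subset_insert a A).trans this.1)
    have hcX : X1.card + X0.card = X.card := card_memberSubfamily_add_card_nonMemberSubfamily a X
    have hcY : (Y.memberSubfamily a).card + (Y.nonMemberSubfamily a).card = Y.card :=
      card_memberSubfamily_add_card_nonMemberSubfamily a Y
    -- the four inclusions
    have i1 : nbd S (j + 1) X0 ⊆ Y.nonMemberSubfamily a := by
      intro B hB
      obtain ⟨hB1, A, hA, hAB⟩ := mem_filter.1 hB
      rw [mem_powersetCard] at hB1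
      rw [hX0, mem_nonMemberSubfamily] at hA
      rw [mem_nonMemberSubfamily]
      refine ⟨mem_filter.2 ⟨mem_powersetCard.2 ⟨hB1.1.trans (subset_insert a S), hB1.2⟩,
        A, hA.1, hAB⟩, fun h => ha (hB1.1 h)⟩
    have i2 : (powersetCard (j + 1) S).filter (fun B => ∃ A ∈ X1, A ⊆ B) ⊆
        Y.nonMemberSubfamily a := by
      intro B hB
      obtain ⟨hB1, A, hA, hAB⟩ := mem_filter.1 hB
      rw [mem_powersetCard] at hB1
      rw [hX1, mem_memberSubfamily] at hA
      rw [mem_nonMemberSubfamily]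
      refine ⟨mem_filter.2 ⟨mem_powersetCard.2 ⟨hB1.1.trans (subset_insert a S), hB1.2⟩,
        _, hA.1, ?_⟩, fun h => ha (hB1.1 h)⟩
      have : (insert a A) \ B ⊆ {a} := by
        intro x hx
        rw [mem_sdiff, mem_insert] at hx
        rcases hx.1 with h | h
        · exact mem_singleton.2 h
        · exact absurd (hAB h) hx.2
      exact (card_le_card this).trans (by simp)
    have i3 : nbd S j X1 ⊆ Y.memberSubfamily a := by
      intro B hB
      obtain ⟨hB1, A, hA, hAB⟩ := mem_filter.1 hB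
      rw [mem_powersetCard] at hB1
      rw [hX1, mem_memberSubfamily] at hA
      rw [mem_memberSubfamily]
      have haB : a ∉ B := fun h => ha (hB1.1 h)
      refine ⟨mem_filter.2 ⟨mem_powersetCard.2 ⟨insert_subset_insert a hB1.1, ?_⟩,
        _, hA.1, ?_⟩, haB⟩
      · rw [card_insert_of_notMem haB, hB1.2]
      · refine (card_le_card ?_).trans hAB
        intro x hx
        rw [mem_sdiff, mem_insert, mem_insert] at hx
        rw [mem_sdiff]
        push Not at hx
        rcases hx.1 with h | h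
        · exact absurd h hx.2.1
        · exact ⟨h, hx.2.2⟩
    have i4 : (powersetCard j S).filter (fun B => ∃ A ∈ X0, B ⊆ A) ⊆
        Y.memberSubfamily a := by
      intro B hB
      obtain ⟨hB1, A, hA, hBA⟩ := mem_filter.1 hB
      rw [mem_powersetCard] at hB1
      have hAc := (mem_powersetCard.1 (hX0s hA)).2
      rw [hX0, mem_nonMemberSubfamily] at hA
      rw [mem_memberSubfamily]
      have haB : a ∉ B := fun h => ha (hB1.1 h)
      refine ⟨mem_filter.2 ⟨mem_powersetCard.2 ⟨insert_subset_insert a hB1.1, ?_⟩,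
        _, hA.1, ?_⟩, haB⟩
      · rw [card_insert_of_notMem haB, hB1.2]
      · refine (card_le_card (t := A \ B) (sdiff_subset_sdiff (Subset.refl A)
          (subset_insert a B))).trans ?_
        rw [card_sdiff_of_subset hBA, hAc, hB1.2]
        omega
    have hc0 : (0 : ℝ) < (S.card.choose (j + 1) : ℝ) := by
      exact_mod_cast Nat.choose_pos hjS
    have hc1 : (0 : ℝ) < (S.card.choose j : ℝ) := by
      exact_mod_cast Nat.choose_pos (by omega)
    have hcn : ((insert a S).card.choose (j + 1) : ℝ) =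
        (S.card.choose j : ℝ) + (S.card.choose (j + 1) : ℝ) := by
      rw [card_insert_of_notMem ha, Nat.choose_succ_succ]
      push_cast
      rfl
    have hcnpos : (0 : ℝ) < ((insert a S).card.choose (j + 1) : ℝ) := by rw [hcn]; positivity
    have hs1 : (1 : ℝ) ≤ (S.card : ℝ) := by
      exact_mod_cast (by omega : 1 ≤ S.card)
    have hsq1 : (1 : ℝ) ≤ √(S.card : ℝ) := by
      rw [Real.one_le_sqrt]; exact hs1
    have hsS : ((insert a S).card : ℝ) = (S.card : ℝ) + 1 := by
      rw [card_insert_of_notMem ha]; push_cast; rfl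
    have main := real_step (p := (S.card.choose j : ℝ) / ((insert a S).card.choose (j + 1) : ℝ))
      (q := (S.card.choose (j + 1) : ℝ) / ((insert a S).card.choose (j + 1) : ℝ))
      (a0 := (X0.card : ℝ) / (S.card.choose (j + 1) : ℝ))
      (a1 := (X1.card : ℝ) / (S.card.choose j : ℝ))
      (g := (1 / 4) / √((insert a S).card : ℝ)) (g' := (1 / 4) / √(S.card : ℝ))
      (ν0 := ((Y.nonMemberSubfamily a).card : ℝ) / (S.card.choose (j + 1) : ℝ))
      (ν1 := ((Y.memberSubfamily a).card : ℝ) / (S.card.choose j : ℝ))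
      (n := (S.card : ℝ) + 1)
      (by positivity) (by positivity) (by rw [← add_div, add_comm, ← hcn, div_self hcnpos.ne'])
      (by positivity)
      (by
        rw [div_le_one hc0]
        exact_mod_cast (card_le_card hX0s).trans (card_powersetCard _ _).le)
      (by positivity)
      (by
        rw [div_le_one hc1]
        exact_mod_cast (card_le_card hX1s).trans (card_powersetCard _ _).le)
      (by positivity) (by positivity)
      (by
        rw [div_le_iff₀ (by positivity)]
        linarith)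
      (by
        rw [div_pow, Real.sq_sqrt (by positivity)]
        rw [div_mul_eq_mul_div, div_le_iff₀ (by positivity)]
        linarith)
      (by
        rw [hsS]
        have hpos : (0 : ℝ) < √((S.card : ℝ) + 1) := by positivity
        have hpos' : (0 : ℝ) < √(S.card : ℝ) := by positivity
        rw [div_mul_eq_mul_div, div_le_div_iff₀ hpos hpos']
        have hle : √(S.card : ℝ) ≤ (1 - 1 / (2 * ((S.card : ℝ) + 1))) * √((S.card : ℝ) + 1) := by
          have hnn : 0 ≤ 1 - 1 / (2 * ((S.card : ℝ) + 1)) := by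
            rw [sub_nonneg, div_le_one (by positivity)]
            linarith
          rw [← Real.sqrt_sq hnn, ← Real.sqrt_mul (sq_nonneg _)]
          apply Real.sqrt_le_sqrt
          have hne : ((S.card : ℝ) + 1) ≠ 0 := by positivity
          have e : (1 - 1 / (2 * ((S.card : ℝ) + 1))) ^ 2 * ((S.card : ℝ) + 1) =
            (S.card : ℝ) + 1 / (4 * ((S.card : ℝ) + 1)) := by
            field_simp
            ring
          rw [e]
          have : (0 : ℝ) < 1 / (4 * ((S.card : ℝ) + 1)) := by positivity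
          linarith
        linarith)
      (by
        refine (ih (j + 1) hjS X0 hX0s).trans ?_
        gcongr)
      (by
        have h := dens_up (S := S) (a := j) (b := j + 1) (U := X1)
          (V := (powersetCard (j + 1) S).filter (fun B => ∃ A ∈ X1, A ⊆ B)) hX1s
          (filter_subset _ _) (by omega) hjS
          (fun A hA B hB hAB => mem_filter.2 ⟨hB, A, hA, hAB⟩)
        refine h.trans ?_
        gcongr)
      (by
        refine (ih j (by omega) X1 hX1s).trans ?_
        gcongr)
      (by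
        have h := dens_down (S := S) (a := j) (b := j + 1)
          (U := (powersetCard j S).filter (fun B => ∃ A ∈ X0, B ⊆ A)) (V := X0)
          (filter_subset _ _) hX0s (by omega) hjS
          (fun A hA B hB hAB => mem_filter.2 ⟨hB, A, hA, hAB⟩)
        refine h.trans ?_
        gcongr)
    have e1 : (S.card.choose (j + 1) : ℝ) / ((insert a S).card.choose (j + 1) : ℝ) *
        ((X0.card : ℝ) / (S.card.choose (j + 1) : ℝ)) +
        (S.card.choose j : ℝ) / ((insert a S).card.choose (j + 1) : ℝ) *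
        ((X1.card : ℝ) / (S.card.choose j : ℝ)) =
        (X.card : ℝ) / ((insert a S).card.choose (j + 1) : ℝ) := by
      rw [← hcX]
      push_cast
      field_simp
      ring
    have e2 : (S.card.choose (j + 1) : ℝ) / ((insert a S).card.choose (j + 1) : ℝ) *
        (((Y.nonMemberSubfamily a).card : ℝ) / (S.card.choose (j + 1) : ℝ)) +
        (S.card.choose j : ℝ) / ((insert a S).card.choose (j + 1) : ℝ) *
        (((Y.memberSubfamily a).card : ℝ) / (S.card.choose j : ℝ)) =
        (Y.card : ℝ) / ((insert a S).card.choose (j + 1) : ℝ) := by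
      rw [← hcY]
      push_cast
      field_simp
      ring
    rw [e1, e2] at main
    exact main

end iso

/-- For every even `n`, every family `𝒜` of `n/2`-subsets of `[n]` of measure `1/2` and every
`0 < ε ≤ 1/2`, the `r`-fold upper shadows of `𝒜` and of its complement, `r = ⌈ε √n⌉`, meet in a
set of measure at least `(3/64) ε`. -/
theorem result (n : ℕ) (hn : Even n) (𝒜 : Finset (Finset (Fin n)))
    (h𝒜 : 𝒜 ⊆ powersetCard (n / 2) univ) (hμ : mu n (n / 2) 𝒜 = 1 / 2)
    (ε : ℝ) (hε : 0 < ε) (hε2 : ε ≤ 1 / 2) :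
    3 / 64 * ε ≤ mu n (n / 2 + ⌈ε * √(n : ℝ)⌉₊)
      (upShadow n (n / 2) ⌈ε * √(n : ℝ)⌉₊ 𝒜 ∩
        upShadow n (n / 2) ⌈ε * √(n : ℝ)⌉₊ (powersetCard (n / 2) univ \ 𝒜)) := by
  classical
  obtain ⟨r, hr⟩ : ∃ r, r = ⌈ε * √(n : ℝ)⌉₊ := ⟨_, rfl⟩
  obtain ⟨k, hk⟩ : ∃ k, k = n / 2 := ⟨_, rfl⟩
  rw [← hr, ← hk]
  rw [← hk] at h𝒜 hμ
  have hn0 : 0 < n := by
    rcases Nat.eq_zero_or_pos n with h | h
    · exfalso
      subst h
      subst hk
      unfold mu at hμ
      have h1 : ((𝒜.card : ℝ)) = 1 / 2 := by simpa using hμ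
      have h2 : ((2 * 𝒜.card : ℕ) : ℝ) = ((1 : ℕ) : ℝ) := by push_cast; linarith
      have h3 : 2 * 𝒜.card = 1 := by exact_mod_cast h2
      omega
    · exact h
  have hn1 : (1 : ℝ) ≤ (n : ℝ) := by exact_mod_cast hn0
  have hk2 : 2 * k = n := by
    rw [hk]; exact Nat.two_mul_div_two_of_even hn
  have hk2' : (k : ℝ) = n / 2 := by
    have : (2 : ℝ) * k = n := by exact_mod_cast hk2
    linarith
  have hsq : √(n : ℝ) ≤ n := by
    rw [Real.sqrt_le_left (by positivity)]
    nlinarith
  have hsq0 : 0 < √(n : ℝ) := by positivity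
  have hrk : r ≤ k := by
    rw [hr, Nat.ceil_le, hk2']
    calc ε * √(n : ℝ) ≤ 1 / 2 * n := by gcongr
      _ = n / 2 := by ring
  have hKn : k + r ≤ n := by omega
  have hkn : k ≤ n := by omega
  have hrε : ε * √(n : ℝ) ≤ r := by rw [hr]; exact Nat.le_ceil _
  have hucard : (univ : Finset (Fin n)).card = n := by simp
  let M : Finset (Finset (Fin n)) := (powersetCard (k + r) univ).filter
    (fun B => ∀ F ∈ powersetCard k (univ : Finset (Fin n)), F ⊆ B → F ∈ 𝒜)
  let M' : Finset (Finset (Fin n)) := (powersetCard (k + r) univ).filter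
    (fun B => ∀ F ∈ powersetCard k (univ : Finset (Fin n)), F ⊆ B → F ∈ powersetCard k univ \ 𝒜)
  set I := upShadow n k r 𝒜 ∩ upShadow n k r (powersetCard k univ \ 𝒜) with hI
  have hcover : powersetCard (k + r) (univ : Finset (Fin n)) ⊆ (M ∪ M') ∪ I := by
    intro B hB
    by_cases h1 : B ∈ M
    · exact mem_union_left _ (mem_union_left _ h1)
    by_cases h2 : B ∈ M'
    · exact mem_union_left _ (mem_union_right _ h2)
    apply mem_union_right
    simp only [M, mem_filter, hB, true_and] at h1
    simp only [M', mem_filter, hB, true_and] at h2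
    push Not at h1 h2
    obtain ⟨F1, hF1, hF1B, hF1A⟩ := h1
    obtain ⟨F2, hF2, hF2B, hF2A⟩ := h2
    have hF2A' : F2 ∈ 𝒜 := by
      by_contra h
      exact hF2A (mem_sdiff.2 ⟨hF2, h⟩)
    rw [hI, mem_inter]
    exact ⟨mem_filter.2 ⟨hB, F2, hF2A', hF2B⟩,
      mem_filter.2 ⟨hB, F1, mem_sdiff.2 ⟨hF1, hF1A⟩, hF1B⟩⟩
  have hC : (0 : ℝ) < (n.choose (k + r) : ℝ) := by exact_mod_cast Nat.choose_pos hKn
  have hCk : (0 : ℝ) < (n.choose k : ℝ) := by exact_mod_cast Nat.choose_pos hkn
  have hcount : (1 : ℝ) ≤ (M.card : ℝ) / (n.choose (k + r) : ℝ) +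
      (M'.card : ℝ) / (n.choose (k + r) : ℝ) + (I.card : ℝ) / (n.choose (k + r) : ℝ) := by
    rw [← add_div, ← add_div, le_div_iff₀ hC, one_mul]
    have h1 := card_le_card hcover
    rw [card_powersetCard, hucard] at h1
    have h2 : n.choose (k + r) ≤ M.card + M'.card + I.card :=
      h1.trans ((card_union_le _ _).trans (Nat.add_le_add_right (card_union_le _ _) _))
    exact_mod_cast h2
  have hmuI : mu n (k + r) I = (I.card : ℝ) / (n.choose (k + r) : ℝ) := rfl
  rw [hmuI]
  have hAc : ((powersetCard k (univ : Finset (Fin n)) \ 𝒜).card : ℝ) / (n.choose k : ℝ) = 1 / 2 := by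
    have h1 : (𝒜.card : ℝ) / (n.choose k : ℝ) = 1 / 2 := hμ
    have h2 : (powersetCard k (univ : Finset (Fin n)) \ 𝒜).card + 𝒜.card = n.choose k := by
      rw [card_sdiff_add_card_eq_card h𝒜, card_powersetCard, hucard]
    have h3 : ((powersetCard k (univ : Finset (Fin n)) \ 𝒜).card : ℝ) + (𝒜.card : ℝ) =
        (n.choose k : ℝ) := by exact_mod_cast h2
    have h4 : ((powersetCard k (univ : Finset (Fin n)) \ 𝒜).card : ℝ) / (n.choose k : ℝ) +
        (𝒜.card : ℝ) / (n.choose k : ℝ) = 1 := by
      rw [← add_div, h3, div_self hCk.ne']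
    linarith
  have hm : (M.card : ℝ) / (n.choose (k + r) : ℝ) ≤ 1 / 2 := by
    have h := dens_down (S := (univ : Finset (Fin n))) (a := k) (b := k + r) (U := 𝒜) (V := M)
      h𝒜 (filter_subset _ _) (by omega) (by rw [hucard]; exact hKn)
      (fun B hB A hA hAB => (mem_filter.1 hB).2 A hA hAB)
    rw [hucard] at h
    exact h.trans hμ.le
  have hm' : (M'.card : ℝ) / (n.choose (k + r) : ℝ) ≤ 1 / 2 := by
    have h := dens_down (S := (univ : Finset (Fin n))) (a := k) (b := k + r)
      (U := powersetCard k univ \ 𝒜) (V := M')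
      sdiff_subset (filter_subset _ _) (by omega) (by rw [hucard]; exact hKn)
      (fun B hB A hA hAB => (mem_filter.1 hB).2 A hA hAB)
    rw [hucard] at h
    exact h.trans hAc.le
  by_cases hc1 : (M.card : ℝ) / (n.choose (k + r) : ℝ) < 1 / 4
  · linarith
  by_cases hc2 : (M'.card : ℝ) / (n.choose (k + r) : ℝ) < 1 / 4
  · linarith
  push Not at hc1 hc2
  let It : ℕ → Finset (Finset (Fin n)) := fun j => (nbd univ (k + r))^[j] M
  have hItsucc : ∀ j, It (j + 1) = nbd univ (k + r) (It j) := by
    intro j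
    simp only [It, Function.iterate_succ_apply']
  have hItsub : ∀ j, It j ⊆ powersetCard (k + r) univ := by
    intro j
    cases j with
    | zero => exact filter_subset _ _
    | succ j => rw [hItsucc]; exact filter_subset _ _
  have hfar : ∀ j, ∀ B ∈ It j, ∀ B' ∈ M', r + 1 ≤ (B \ B').card + j := by
    intro j
    induction j with
    | zero =>
      intro B hB B' hB'
      have hB1 : B ∈ M := hB
      by_contra hcon
      push Not at hcon
      have hBc := (mem_powersetCard.1 ((mem_filter.1 hB1).1)).2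
      have h1 : (B \ B').card + (B ∩ B').card = B.card := card_sdiff_add_card_inter B B'
      have h2 : k ≤ (B ∩ B').card := by omega
      obtain ⟨F, hF, hFc⟩ := exists_subset_card_eq h2
      have hFk : F ∈ powersetCard k (univ : Finset (Fin n)) :=
        mem_powersetCard.2 ⟨subset_univ _, hFc⟩
      have hFA : F ∈ 𝒜 := (mem_filter.1 hB1).2 F hFk (hF.trans inter_subset_left)
      have hFA' := (mem_filter.1 hB').2 F hFk (hF.trans inter_subset_right)
      exact (mem_sdiff.1 hFA').2 hFA
    | succ j ih =>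
      intro B hB B' hB'
      rw [hItsucc] at hB
      obtain ⟨-, A, hA, hAB⟩ := mem_filter.1 hB
      have h1 := ih A hA B' hB'
      have h2 : (A \ B').card ≤ (A \ B).card + (B \ B').card := by
        refine (card_le_card ?_).trans (card_union_le _ _)
        intro x hx
        rw [mem_sdiff] at hx
        rw [mem_union, mem_sdiff, mem_sdiff]
        by_cases hxB : x ∈ B
        · exact Or.inr ⟨hxB, hx.2⟩
        · exact Or.inl ⟨hx.1, hxB⟩
      omega
  have hdisj : ∀ j ≤ r, (It j).card + M'.card ≤ n.choose (k + r) := by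
    intro j hj
    have hd : Disjoint (It j) M' := by
      rw [disjoint_left]
      intro B hB hB'
      have := hfar j B hB B hB'
      rw [sdiff_self] at this
      simp at this
      omega
    rw [← card_union_of_disjoint hd]
    have h1 : (It j) ∪ M' ⊆ powersetCard (k + r) univ :=
      union_subset (hItsub j) (filter_subset _ _)
    have h2 := card_le_card h1
    rwa [card_powersetCard, hucard] at h2
  have hupper : ∀ j ≤ r, ((It j).card : ℝ) / (n.choose (k + r) : ℝ) +
      (M'.card : ℝ) / (n.choose (k + r) : ℝ) ≤ 1 := by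
    intro j hj
    rw [← add_div, div_le_one hC]
    exact_mod_cast hdisj j hj
  have hgrow : ∀ j ≤ r, (M.card : ℝ) / (n.choose (k + r) : ℝ) + j * (3 / 64 / √(n : ℝ)) ≤
      ((It j).card : ℝ) / (n.choose (k + r) : ℝ) := by
    intro j
    induction j with
    | zero =>
      intro _
      have : It 0 = M := rfl
      rw [this]
      simp
    | succ j ih =>
      intro hj
      have h1 := ih (by omega)
      have h2 := iso (univ : Finset (Fin n)) (k + r) (by rw [hucard]; exact hKn) (It j) (hItsub j)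
      rw [hucard, ← hItsucc] at h2
      have h3 := hupper j (by omega)
      refine le_trans ?_ h2
      obtain ⟨x, hx⟩ : ∃ x, x = ((It j).card : ℝ) / (n.choose (k + r) : ℝ) := ⟨_, rfl⟩
      rw [← hx] at h1 h3 ⊢
      have hjpos : 0 ≤ (j : ℝ) * (3 / 64 / √(n : ℝ)) := by positivity
      have hx1 : 1 / 4 ≤ x := by linarith
      have hx2 : x ≤ 3 / 4 := by linarith
      have hx3 : 3 / 16 ≤ x * (1 - x) := by nlinarith
      have h4 : 1 / 4 / √(n : ℝ) * (3 / 16) ≤ 1 / 4 / √(n : ℝ) * (x * (1 - x)) := by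
        gcongr
      have e1 : 1 / 4 / √(n : ℝ) * x * (1 - x) = 1 / 4 / √(n : ℝ) * (x * (1 - x)) := by ring
      have e2 : (((j + 1 : ℕ) : ℝ)) * (3 / 64 / √(n : ℝ)) =
          (j : ℝ) * (3 / 64 / √(n : ℝ)) + 1 / 4 / √(n : ℝ) * (3 / 16) := by
        push_cast
        ring
      rw [e1, e2]
      linarith
  have hfin := hgrow r le_rfl
  have hfin2 := hupper r le_rfl
  have h5 : 3 / 64 * ε ≤ r * (3 / 64 / √(n : ℝ)) := by
    have : ε ≤ r / √(n : ℝ) := by rw [le_div_iff₀ hsq0]; exact hrε
    calc 3 / 64 * ε ≤ 3 / 64 * (r / √(n : ℝ)) := by gcongr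
      _ = _ := by ring
  linarith

end Pool.Agent.Results.MP_5f127b_co.LinearBound
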